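import Pool.Agent.Q44.PE.Stm

/-!
# Project PE (helper44), job ST: the linear approximation of a morphism with good reduction
-/

set_option autoImplicit false
set_option linter.unusedSectionVars false
set_option linter.unusedVariables false

namespace Pool.Agent.Q123.PE

open MvPolynomial Pool.Agent.Q44.SA Pool.Agent.Q44.PG Pool.Agent.Q44.PE
open Pool.Agent.Q190.SA (rel_unique rel_pt)

section ultra
variable {L : Type} [NormedField L] [IsUltrametricDist L]

theorem nadd {a b : L} {C : ℝ} (ha : ‖a‖ ≤ C) (hb : ‖b‖ ≤ C) : ‖a + b‖ ≤ C :=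
  (IsUltrametricDist.norm_add_le_max a b).trans (max_le ha hb)

theorem nsub {a b : L} {C : ℝ} (ha : ‖a‖ ≤ C) (hb : ‖b‖ ≤ C) : ‖a - b‖ ≤ C := by
  rw [sub_eq_add_neg]
  exact nadd ha (by rwa [norm_neg])

theorem nsum {ι : Type} (s : Finset ι) {f : ι → L} {C : ℝ} (hC : 0 ≤ C) (h : ∀ i ∈ s, ‖f i‖ ≤ C) :
    ‖∑ i ∈ s, f i‖ ≤ C :=
  IsUltrametricDist.norm_sum_le_of_forall_le_of_nonneg hC h

theorem nmul1 {a b : L} {C : ℝ} (ha : ‖a‖ ≤ 1) (hb : ‖b‖ ≤ C) : ‖a * b‖ ≤ C := by
  rw [norm_mul]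
  exact (mul_le_of_le_one_left (norm_nonneg b) ha).trans hb

theorem nmul2 {a b : L} {C : ℝ} (ha : ‖a‖ ≤ C) (hb : ‖b‖ ≤ 1) : ‖a * b‖ ≤ C := by
  rw [mul_comm]
  exact nmul1 hb ha

/-- `‖a‖ = 1` and `‖b - a‖ ≤ ε < 1` gives `‖b‖ = 1` -/
theorem none_of_near {a b : L} {ε : ℝ} (ha : ‖a‖ = 1) (hε : ε < 1) (h : ‖b - a‖ ≤ ε) : ‖b‖ = 1 := by
  apply le_antisymm
  · have : b = a + (b - a) := by ring
    rw [this]
    exact nadd ha.le (h.trans hε.le)
  · by_contra hlt
    push Not at hlt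
    have h1 : a = b - (b - a) := by ring
    have h2 : ‖a‖ ≤ max ‖b‖ ε := by
      rw [h1]
      exact nsub (le_max_left _ _) (h.trans (le_max_right _ _))
    rw [ha] at h2
    exact absurd h2 (not_le.2 (max_lt hlt hε))

end ultra

theorem step (h1 : E_tay) (h2 : E_can) : E_step := by
  intro K L _ _ _ σ n I φ hG ε hε hε1 g hg P
  obtain ⟨hP1, i, hPi, hPj⟩ := (g P).2.2
  obtain ⟨l, a0, ha0⟩ := hG.2 P.1 P.2.1 P.2.2.1
  let f : Fin n → MvPolynomial (Fin n) L := fun b => map σ (φ.F l b)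
  have hf : ∀ b m, ‖coeff m (f b)‖ ≤ 1 := fun b m => by
    change ‖coeff m (map σ (φ.F l b))‖ ≤ 1
    rw [coeff_map]
    exact hG.1 l b m
  have hev : ∀ (x : Fin n → L) b, eval x (f b) = eval₂ σ x (φ.F l b) := fun x b => by
    change eval x (map σ (φ.F l b)) = _
    rw [eval_map]
  have hPn : ‖(P : Fin n → L)‖ ≤ 1 := P.2.2.1.le
  have hrel : ∀ x : Xs σ I, (∃ a, eval (x : Fin n → L) (f a) ≠ 0) →
      φ.Rel σ x.1 fun b => eval (x : Fin n → L) (f b) := by
    rintro x ⟨a, ha⟩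
    refine ⟨l, ⟨a, by rwa [← hev]⟩, 1, one_ne_zero, fun b => ?_⟩
    rw [one_mul]
    exact hev _ _
  have hT := fun b => h1 L n (f b) (hf b) ε hε.le hε1.le P.1
  -- values at `P`
  set v : Fin n → L := fun b => eval (P : Fin n → L) (f b) with hv
  have hz : ‖(P : Fin n → L) - P‖ ≤ ε := by
    rw [sub_self, norm_zero]
    exact hε.le
  have hv1 : ∀ b, ‖v b‖ ≤ 1 := fun b => (hT b P.1 P.1 hPn hz hz).1
  have hd1 : ∀ a b, ‖eval (P : Fin n → L) (pderiv a (f b))‖ ≤ 1 := fun a b =>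
    (hT b P.1 P.1 hPn hz hz).2.1 a
  have hva : ‖v a0‖ = 1 := by
    change ‖eval (P : Fin n → L) (f a0)‖ = 1
    rw [hev]
    exact ha0
  obtain ⟨t, ht0, ht⟩ := rel_unique φ σ P.2.1 (hrel P ⟨a0, fun h => by
    have : v a0 = 0 := h
    rw [this, norm_zero] at hva
    exact zero_ne_one hva⟩) (hg P)
  have htv : ∀ b, (g P : Fin n → L) b = t * v b := fun b => congrFun ht b
  have ht1 : ‖t‖ = 1 := by
    apply le_antisymm
    · have h3 := norm_le_pi_norm (g P : Fin n → L) a0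
      rw [htv, norm_mul, hva, mul_one, hP1] at h3
      exact h3
    · have h3 : ‖(g P : Fin n → L)‖ ≤ ‖t‖ := by
        rw [pi_norm_le_iff_of_nonneg (norm_nonneg t)]
        intro b
        rw [htv, norm_mul]
        exact mul_le_of_le_one_right (norm_nonneg t) (hv1 b)
      rwa [hP1] at h3
  have htvi : t * v i = 1 := by rw [← htv, hPi]
  have hvi : ‖v i‖ = 1 := by
    have := congrArg norm htvi
    rwa [norm_mul, ht1, one_mul, norm_one] at this
  have hvi0 : v i ≠ 0 := by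
    intro h
    rw [h, norm_zero] at hvi
    exact zero_ne_one hvi
  -- points near `P`
  have hlin : ∀ (b : Fin n) (z : Fin n → L), ‖∑ a, eval (P : Fin n → L) (pderiv a (f b)) * z a‖ ≤ ‖z‖ :=
    fun b z => nsum _ (norm_nonneg z) fun a _ => nmul1 (hd1 a b) (norm_le_pi_norm z a)
  have hnear : ∀ x : Xs σ I, ‖(x : Fin n → L) - P‖ ≤ ε → ∀ b,
      ‖eval (x : Fin n → L) (f b) - v b‖ ≤ ε := by
    intro x hx b
    have h3 := (hT b P.1 x.1 hPn hz hx).2.2
    have h4 : eval (x : Fin n → L) (f b) - v b = (eval (x : Fin n → L) (f b) - eval (P : Fin n → L) (f b) -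
      ∑ a, eval (P : Fin n → L) (pderiv a (f b)) * ((x : Fin n → L) a - (P : Fin n → L) a)) +
      ∑ a, eval (P : Fin n → L) (pderiv a (f b)) * ((x : Fin n → L) - P) a := by
        change _ - eval (P : Fin n → L) (f b) = _
        simp only [Pi.sub_apply]
        ring
    rw [h4]
    refine nadd (h3.trans ?_) ((hlin b _).trans hx)
    exact mul_le_of_le_one_right hε.le (hx.trans hε1.le)
  have hcan : ∀ x : Xs σ I, ‖(x : Fin n → L) - P‖ ≤ ε → ‖eval (x : Fin n → L) (f i)‖ = 1 ∧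
      ∀ b, (g x : Fin n → L) b = eval (x : Fin n → L) (f b) / eval (x : Fin n → L) (f i) := by
    intro x hx
    have h3 : ‖eval (x : Fin n → L) (f i)‖ = 1 := none_of_near hvi hε1 (hnear x hx i)
    have h30 : eval (x : Fin n → L) (f i) ≠ 0 := by
      intro h
      rw [h, norm_zero] at h3
      exact zero_ne_one h3
    refine ⟨h3, ?_⟩
    obtain ⟨t', ht0', ht'⟩ := rel_unique φ σ x.2.1 (hrel x ⟨i, h30⟩) (hg x)
    have h4 := h2 L n (g P : Fin n → L)
    let x'' : Fin n → L := fun b => eval (x : Fin n → L) (f b) / eval (x : Fin n → L) (f i)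
    have h5 : ‖x'' - (g P : Fin n → L)‖ < 1 := by
      refine lt_of_le_of_lt ?_ hε1
      rw [pi_norm_le_iff_of_nonneg hε.le]
      intro b
      have ht2 : t = (v i)⁻¹ := eq_inv_of_mul_eq_one_left htvi
      have h6 : (x'' - (g P : Fin n → L)) b = ((eval (x : Fin n → L) (f b) - v b) * v i -
          v b * (eval (x : Fin n → L) (f i) - v i)) / (eval (x : Fin n → L) (f i) * v i) := by
        change eval (x : Fin n → L) (f b) / eval (x : Fin n → L) (f i) - (g P : Fin n → L) b = _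
        rw [htv, ht2]
        field_simp
        ring
      rw [h6, norm_div, norm_mul, h3, hvi, one_mul, div_one]
      exact nsub (nmul2 (hnear x hx b) hvi.le) (nmul1 (hv1 b) (hnear x hx i))
    have h7 : Can x'' := (h4.2.2 i hP1 hPi hPj x'' h5).2 (div_self h30)
    have h8 : (g x : Fin n → L) = (t' * eval (x : Fin n → L) (f i)) • x'' := by
      rw [ht']
      funext b
      change t' * eval (x : Fin n → L) (f b) = t' * eval (x : Fin n → L) (f i) *
        (eval (x : Fin n → L) (f b) / eval (x : Fin n → L) (f i))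
      field_simp
    have h9 : t' * eval (x : Fin n → L) (f i) = 1 :=
      (h2 L n x'').2.1 _ h7 (by rw [← h8]; exact (g x).2.2)
    intro b
    rw [h8, h9, one_smul]
  -- the matrix
  refine ⟨Matrix.of fun b a => (eval (P : Fin n → L) (pderiv a (f b)) * v i -
    v b * eval (P : Fin n → L) (pderiv a (f i))) / v i ^ 2, fun b a => ?_, fun x y hx hy => ?_⟩
  · rw [Matrix.of_apply, norm_div, norm_pow, hvi, one_pow, div_one]
    exact nsub (nmul1 (hd1 a b) hvi.le) (nmul1 (hv1 b) (hd1 a i))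
  obtain ⟨hx1, hx2⟩ := hcan x hx
  obtain ⟨hy1, hy2⟩ := hcan y hy
  have hx0 : eval (x : Fin n → L) (f i) ≠ 0 := by
    intro h
    rw [h, norm_zero] at hx1
    exact zero_ne_one hx1
  have hy0 : eval (y : Fin n → L) (f i) ≠ 0 := by
    intro h
    rw [h, norm_zero] at hy1
    exact zero_ne_one hy1
  rw [pi_norm_le_iff_of_nonneg (mul_nonneg hε.le (norm_nonneg _))]
  intro b
  set δ : Fin n → L := (y : Fin n → L) - x with hδ
  set D : Fin n → L := fun b => ∑ a, eval (P : Fin n → L) (pderiv a (f b)) * δ a with hD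
  have hDn : ∀ b, ‖D b‖ ≤ ‖δ‖ := fun b => hlin b δ
  have hE : ∀ b, ‖eval (y : Fin n → L) (f b) - eval (x : Fin n → L) (f b) - D b‖ ≤ ε * ‖δ‖ :=
    fun b => (hT b x.1 y.1 hPn hx hy).2.2
  have hx3 : ∀ b, ‖eval (x : Fin n → L) (f b)‖ ≤ 1 := fun b => (hT b x.1 y.1 hPn hx hy).1
  have hmul : ((Matrix.of fun b a => (eval (P : Fin n → L) (pderiv a (f b)) * v i -
      v b * eval (P : Fin n → L) (pderiv a (f i))) / v i ^ 2).mulVec δ) b =
      (D b * v i - v b * D i) / v i ^ 2 := by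
    change ∑ a, (eval (P : Fin n → L) (pderiv a (f b)) * v i -
      v b * eval (P : Fin n → L) (pderiv a (f i))) / v i ^ 2 * δ a = _
    change _ = ((∑ a, eval (P : Fin n → L) (pderiv a (f b)) * δ a) * v i -
      v b * ∑ a, eval (P : Fin n → L) (pderiv a (f i)) * δ a) / v i ^ 2
    rw [Finset.sum_mul, Finset.mul_sum, ← Finset.sum_sub_distrib, Finset.sum_div]
    refine Finset.sum_congr rfl fun a _ => ?_
    ring
  set X : Fin n → L := fun b => eval (x : Fin n → L) (f b) with hX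
  set Y : Fin n → L := fun b => eval (y : Fin n → L) (f b) with hY
  have hδ0 : 0 ≤ ‖δ‖ := norm_nonneg δ
  have hprod : ∀ c d : L, ‖c‖ ≤ ‖δ‖ → ‖d‖ ≤ ε → ‖c * d‖ ≤ ε * ‖δ‖ := by
    intro c d hc hd
    rw [norm_mul, mul_comm]
    exact mul_le_mul hd hc (norm_nonneg _) hε.le
  have hnum : ‖(Y b * X i - X b * Y i) - (D b * v i - v b * D i)‖ ≤ ε * ‖δ‖ := by
    have h3 : (Y b * X i - X b * Y i) - (D b * v i - v b * D i) =
        (D b * (X i - v i) + (Y b - X b - D b) * X i) -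
          (D i * (X b - v b) + X b * (Y i - X i - D i)) := by ring
    rw [h3]
    refine nsub (nadd ?_ ?_) (nadd ?_ ?_)
    · exact hprod _ _ (hDn b) (hnear x hx i)
    · exact nmul2 (hE b) hx1.le
    · exact hprod _ _ (hDn i) (hnear x hx b)
    · exact nmul1 (hx3 b) (hE i)
  have hW : ‖D b * v i - v b * D i‖ ≤ ‖δ‖ := nsub (nmul2 (hDn b) hvi.le) (nmul1 (hv1 b) (hDn i))
  have hfin : ((g y : Fin n → L) - g x - (Matrix.of fun b a => (eval (P : Fin n → L) (pderiv a (f b)) * v i -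
      v b * eval (P : Fin n → L) (pderiv a (f i))) / v i ^ 2).mulVec δ) b =
      ((Y b * X i - X b * Y i) - (D b * v i - v b * D i)) / (X i * Y i) +
      (D b * v i - v b * D i) * ((v i * (v i - Y i) + (v i - X i) * Y i) / (X i * Y i * v i ^ 2)) := by
    rw [Pi.sub_apply, Pi.sub_apply, hmul, hx2, hy2]
    change Y b / Y i - X b / X i - _ = _
    have hX0 : X i ≠ 0 := hx0
    have hY0 : Y i ≠ 0 := hy0
    field_simp
    ring
  rw [hfin]
  have hX1 : ‖X i‖ = 1 := hx1
  have hY1 : ‖Y i‖ = 1 := hy1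
  refine nadd ?_ ?_
  · rw [norm_div, norm_mul, hX1, hY1, one_mul, div_one]
    exact hnum
  · refine hprod _ _ hW ?_
    rw [norm_div, norm_mul, norm_mul, norm_pow, hX1, hY1, hvi, one_mul, one_mul, one_pow, div_one]
    refine nadd (nmul1 hvi.le ?_) (nmul2 ?_ hY1.le)
    · rw [norm_sub_rev]
      exact hnear y hy i
    · rw [norm_sub_rev]
      exact hnear x hx i

/-- **E_step** -/
theorem main (h1 : E_tay) (h2 : E_can) : E_step := step h1 h2

end Pool.Agent.Q123.PE
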