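import Pool.Agent.Q44.PE.Stm

/-!
# Project PE (helper44), job WO: finitely many types of words
-/

set_option autoImplicit false
set_option linter.unusedSectionVars false
set_option linter.unusedVariables false

namespace Pool.Agent.Q123.PE

open MvPolynomial Pool.Agent.Q44.SA Pool.Agent.Q44.PG Pool.Agent.Q44.PE
open Pool.Agent.Q190.SA (rel_unique rel_unique_smul rel_pt rel_inv rel_exists rel_smul pt_smul)

section base
variable {K L : Type} [Field K] [Field L] (σ : K →+* L) {n : ℕ} {I : Ideal (MvPolynomial (Fin n) K)}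

theorem eval_base (x : Fin n → K) (f : MvPolynomial (Fin n) K) :
    eval₂ σ (σ ∘ x) f = σ (eval₂ (RingHom.id K) x f) := by
  have h := eval₂_comp_left σ (RingHom.id K) x f
  rw [RingHom.comp_id] at h
  exact h.symm

theorem pt_base {x : Fin n → K} (hx : Pt (RingHom.id K) I x) : Pt σ I (σ ∘ x) := by
  refine ⟨fun h => hx.1 ?_, fun f hf => ?_⟩
  · funext i
    have h1 := congrFun h i
    exact (map_eq_zero σ).1 h1
  · rw [eval_base, hx.2 f hf, map_zero]

theorem rel_base (φ : Mor I) {x y : Fin n → K} (h : φ.Rel (RingHom.id K) x y) :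
    φ.Rel σ (σ ∘ x) (σ ∘ y) := by
  obtain ⟨l, ⟨a, ha⟩, c, hc, hy⟩ := h
  refine ⟨l, ⟨a, ?_⟩, σ c, (map_ne_zero σ).2 hc, fun b => ?_⟩
  · rw [eval_base]
    exact (map_ne_zero σ).2 ha
  · rw [eval_base, Function.comp_apply, hy b, map_mul]

/-- points with the same ideal are proportional -/
theorem prop_of_van {y y' : Fin n → K} (hy : y ≠ 0) (hy' : y' ≠ 0) (h : Van {y} = Van {y'}) :
    ∃ t : K, t ≠ 0 ∧ y' = t • y := by
  obtain ⟨a, ha⟩ := Function.ne_iff.1 hy
  have h1 : ∀ b, y a * y' b - y b * y' a = 0 := by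
    intro b
    have h2 : C (y a) * X b - C (y b) * X a ∈ Van {y} := by
      intro z hz t
      rw [Set.mem_singleton_iff.1 hz]
      simp only [map_sub, map_mul, eval_C, eval_X, Pi.smul_apply, smul_eq_mul]
      ring
    rw [h] at h2
    have h3 := h2 y' (Set.mem_singleton _) 1
    simpa only [map_sub, map_mul, eval_C, eval_X, one_smul] using h3
  have h4 : y' = (y' a / y a) • y := by
    funext b
    have h5 := h1 b
    have h6 : y a ≠ 0 := ha
    rw [Pi.smul_apply, smul_eq_mul]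
    field_simp
    linear_combination h5
  refine ⟨y' a / y a, fun h0 => hy' ?_, h4⟩
  rw [h4, h0, zero_smul]

/-- the ideal of a point does not depend on the coordinates -/
theorem van_smul {y : Fin n → K} {t : K} (ht : t ≠ 0) : (Van {t • y} : Ideal (MvPolynomial (Fin n) K)) = Van {y} := by
  ext f
  constructor
  · intro h z hz s
    rw [Set.mem_singleton_iff.1 hz]
    have h1 := h (t • y) (Set.mem_singleton _) (s * t⁻¹)
    rwa [smul_smul, mul_assoc, inv_mul_cancel₀ ht, mul_one] at h1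
  · intro h z hz s
    rw [Set.mem_singleton_iff.1 hz, smul_smul]
    exact h y (Set.mem_singleton _) _

end base

theorem words (h1 : E_can) (h2 : E_step) (h3 : E_ex) (h4 : E_lin) (h5 : E_typ) (h6 : E_per) (h7 : E_del) :
    E_words := by
  classical
  intro K _ _ L _ _ _ σ n I hI S φ ψ hψφ hφψ hG hG'
  have hcz : CharZero L := charZero_of_injective_ringHom σ.injective
  obtain ⟨δ, hδ, hδp⟩ := h7 L
  set ε : ℝ := min δ 1 / 2 with hε
  have hm : 0 < min δ 1 := lt_min hδ one_pos
  have hε0 : 0 < ε := by positivity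
  have hε1 : ε < 1 := by
    have := min_le_right δ 1
    linarith
  have hεδ : ε < δ := by
    have := min_le_left δ 1
    linarith
  -- letters
  let iv : S × Bool → S × Bool := fun a => (a.1, !a.2)
  have hLG : ∀ a, GoodM (Lt φ ψ a) σ := by
    rintro ⟨s, b⟩
    cases b
    · exact hG' s
    · exact hG s
  have hLI : ∀ a, LeftInv (Lt φ ψ (iv a)) (Lt φ ψ a) := by
    rintro ⟨s, b⟩
    cases b
    · exact hφψ s
    · exact hψφ s
  have hiv : ∀ a, iv (iv a) = a := by
    rintro ⟨s, b⟩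
    cases b <;> rfl
  choose g hg using fun a => h3 K L σ n I hI (Lt φ ψ a)
  have hgl : ∀ a, Lin ε (Xs σ I) (g a) := fun a =>
    h2 K L σ n I (Lt φ ψ a) (hLG a) ε hε0 hε1 (g a) (hg a)
  have hginv : ∀ a x, g (iv a) (g a x) = x := by
    intro a x
    have e1 := rel_inv _ _ (hLI a) σ x.2.1 (hg a x) (g a x).2.1
    obtain ⟨t, ht, hx⟩ := rel_unique _ σ (g a x).2.1 e1 (hg (iv a) (g a x))
    have e2 := (h1 L n x.1).2.1 t x.2.2 (by rw [← hx]; exact (g (iv a) (g a x)).2.2)
    rw [e2, one_smul] at hx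
    exact Subtype.ext hx
  -- words
  let G : List (S × Bool) → Xs σ I → Xs σ I := fun w => List.rec (fun x => x) (fun a _ h x => g a (h x)) w
  let G' : List (S × Bool) → Xs σ I → Xs σ I := fun w =>
    List.rec (fun x => x) (fun a _ h x => h (g (iv a) x)) w
  have hG0 : ∀ x, G [] x = x := fun x => rfl
  have hG1 : ∀ a w x, G (a :: w) x = g a (G w x) := fun a w x => rfl
  have hG0' : ∀ x, G' [] x = x := fun x => rfl
  have hG1' : ∀ a w x, G' (a :: w) x = G' w (g (iv a) x) := fun a w x => rfl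
  have hid : Lin ε (Xs σ I) (fun x => x) := by
    intro P
    refine ⟨1, fun a b => ?_, fun x y _ _ => ?_⟩
    · rw [Matrix.one_apply]
      split_ifs
      · exact norm_one.le
      · rw [norm_zero]
        exact zero_le_one
    · rw [Matrix.one_mulVec, sub_self, norm_zero]
      exact mul_nonneg hε0.le (norm_nonneg _)
  have hGl : ∀ w, Lin ε (Xs σ I) (G w) := by
    intro w
    induction w with
    | nil => exact hid
    | cons a w ih => exact h4 L n ε hε0 hε1 _ (g a) (G w) (hgl a) ih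
  have hGl' : ∀ w, Lin ε (Xs σ I) (G' w) := by
    intro w
    induction w with
    | nil => exact hid
    | cons a w ih => exact h4 L n ε hε0 hε1 _ (G' w) (g (iv a)) ih (hgl (iv a))
  have hinv1 : ∀ w x, G' w (G w x) = x := by
    intro w
    induction w with
    | nil => intro x; rfl
    | cons a w ih =>
      intro x
      rw [hG1, hG1', hginv, ih]
  have hinv2 : ∀ w x, G w (G' w x) = x := by
    intro w
    induction w with
    | nil => intro x; rfl
    | cons a w ih =>
      intro x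
      rw [hG1, hG1', ih]
      have := hginv (iv a) x
      rwa [hiv] at this
  obtain ⟨T, hT, τ, hτ⟩ := h5 L n ε hε0 hε1 (Xs σ I) (fun x hx => hx.2.1.le)
  refine ⟨T, hT, fun w => τ (G w), fun w w' hww x hx y y' hy hy' => ?_⟩
  obtain ⟨hxp, 𝒥, h𝒥f, hx𝒥, h𝒥⟩ := hx
  have h𝒥L : ∀ a, ∀ J ∈ 𝒥, Im (Lt φ ψ a) J ∈ 𝒥 := by
    rintro ⟨s, b⟩ J hJ
    cases b
    · exact (h𝒥 s J hJ).2
    · exact (h𝒥 s J hJ).1
  have hnear : NearId ε (Xs σ I) (fun x => G' w' (G w x)) :=
    hτ (G w) (G w') (G' w') (hGl w) (hGl w') (hGl' w') (hinv1 w') hww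
  -- the canonical coordinates
  obtain ⟨c0, hc0, hcan⟩ := (h1 L n (σ ∘ x)).1 (pt_base σ hxp).1
  let xh : Xs σ I := ⟨c0 • (σ ∘ x), pt_smul hI σ (pt_base σ hxp) hc0, hcan⟩
  -- the finite set
  let O : Set (Xs σ I) := {z | ∃ y : Fin n → K, Pt (RingHom.id K) I y ∧ Van {y} ∈ 𝒥 ∧
    ∃ c : L, c ≠ 0 ∧ (z : Fin n → L) = c • (σ ∘ y)}
  have hOf : O.Finite := by
    choose! yy hy1 hy2 hy3 using fun (z : Xs σ I) (hz : z ∈ O) => hz
    refine Set.Finite.of_injOn (f := fun z => (Van {yy z} : Ideal (MvPolynomial (Fin n) K)))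
      (t := 𝒥) (fun z hz => hy2 z hz) ?_ h𝒥f
    intro z hz z' hz' hzz
    obtain ⟨t, ht, e1⟩ := prop_of_van (hy1 z hz).1 (hy1 z' hz').1 hzz
    obtain ⟨c, hc, e2⟩ := hy3 z hz
    obtain ⟨c', hc', e3⟩ := hy3 z' hz'
    have e4 : (z' : Fin n → L) = (c' * σ t / c) • (z : Fin n → L) := by
      rw [e3, e2, e1, smul_smul, div_mul_cancel₀ _ hc]
      funext i
      simp only [Pi.smul_apply, Function.comp_apply, smul_eq_mul, map_mul]
      ring
    have e5 := (h1 L n (z : Fin n → L)).2.1 _ z.2.2 (by rw [← e4]; exact z'.2.2)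
    rw [e5, one_smul] at e4
    exact Subtype.ext e4.symm
  have hOg : ∀ a, ∀ z ∈ O, g a z ∈ O := by
    rintro a z ⟨y, hyp, hyJ, c, hc, hz⟩
    obtain ⟨y1, hy1⟩ := rel_exists (Lt φ ψ a) (RingHom.id K) hyp
    have hy1p := rel_pt hI _ _ hyp hy1
    refine ⟨y1, hy1p, ?_, ?_⟩
    · have e1 := Pool.Agent.Q96.PG.IM.im K n I hI (Lt φ ψ a) {y} (by
        intro z hz
        rw [Set.mem_singleton_iff.1 hz]
        exact hyp)
      have e2 : (Van {y' | ∃ y0 ∈ ({y} : Set (Fin n → K)), (Lt φ ψ a).Rel (RingHom.id K) y0 y'} :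
          Ideal (MvPolynomial (Fin n) K)) = Van {y1} := by
        ext f
        constructor
        · intro hf z hz t
          rw [Set.mem_singleton_iff.1 hz]
          exact hf y1 ⟨y, Set.mem_singleton _, hy1⟩ t
        · rintro hf z ⟨y0, hy0, hrel⟩ t
          rw [Set.mem_singleton_iff.1 hy0] at hrel
          obtain ⟨s, hs, e3⟩ := rel_unique _ _ hyp hy1 hrel
          rw [e3, smul_smul]
          exact hf y1 (Set.mem_singleton _) _
      rw [← e2, ← e1]
      exact h𝒥L a _ hyJ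
    · have e1 := hg a z
      rw [hz] at e1
      exact rel_unique_smul _ σ (pt_base σ hyp) (rel_base σ _ hy1) hc e1
  have hOG : ∀ w, ∀ z ∈ O, G w z ∈ O := by
    intro w
    induction w with
    | nil => exact fun z hz => hz
    | cons a w ih => exact fun z hz => hOg a _ (ih z hz)
  have hOG' : ∀ w, ∀ z ∈ O, G' w z ∈ O := by
    intro w
    induction w with
    | nil => exact fun z hz => hz
    | cons a w ih => exact fun z hz => ih _ (hOg _ z hz)
  have hxO : xh ∈ O := ⟨x, hxp, hx𝒥, c0, hc0, rfl⟩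
  -- periodicity
  obtain ⟨k, hk, hkx⟩ : ∃ k : ℕ, 0 < k ∧ (fun x => G' w' (G w x))^[k] xh = xh := by
    have : Finite O := hOf
    let u : O → O := fun z => ⟨G' w' (G w z.1), hOG' w' _ (hOG w _ z.2)⟩
    have hu : Function.Injective u := by
      intro z z' hzz
      have e1 : G' w' (G w z.1) = G' w' (G w z'.1) := congrArg Subtype.val hzz
      have e2 := congrArg (G w') e1
      rw [hinv2, hinv2] at e2
      have e3 := congrArg (G' w) e2
      rw [hinv1, hinv1] at e3
      exact Subtype.ext e3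
    obtain ⟨k, hk, hkx⟩ := hu.mem_periodicPts ⟨xh, hxO⟩
    refine ⟨k, hk, ?_⟩
    have e1 : ∀ (j : ℕ) (z : O), ((u^[j] z : O) : Xs σ I) = (fun x => G' w' (G w x))^[j] z.1 := by
      intro j
      induction j with
      | zero => intro z; rfl
      | succ j ih =>
        intro z
        rw [Function.iterate_succ_apply, Function.iterate_succ_apply, ih]
    rw [← e1 k ⟨xh, hxO⟩]
    exact congrArg Subtype.val hkx
  have hux : G' w' (G w xh) = xh :=
    h6 L n ε hε0 hε1 (fun ℓ hℓ => lt_of_lt_of_le hεδ (hδp ℓ hℓ)) (Xs σ I) _ hnear xh k hk hkx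
  have hGG : G w xh = G w' xh := by
    have e1 := congrArg (G w') hux
    rwa [hinv2] at e1
  -- images of the point
  have hreach : ∀ (v : List (S × Bool)) (z : Fin n → K), Reach φ ψ (RingHom.id K) v x z →
      Pt (RingHom.id K) I z ∧ ∃ c : L, c ≠ 0 ∧ (G v xh).1 = c • (σ ∘ z) := by
    intro v
    induction v with
    | nil =>
      rintro z ⟨c, hc, rfl⟩
      refine ⟨pt_smul hI _ hxp hc, c0 / σ c, div_ne_zero hc0 ((map_ne_zero σ).2 hc), ?_⟩
      rw [hG0]
      change c0 • (σ ∘ x) = _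
      have hc' : σ c ≠ 0 := (map_ne_zero σ).2 hc
      funext i
      simp only [Pi.smul_apply, Function.comp_apply, smul_eq_mul, map_mul]
      field_simp
    | cons a v ih =>
      rintro z ⟨z1, hz1, hrel⟩
      obtain ⟨hp, c, hc, e1⟩ := ih z1 hz1
      refine ⟨rel_pt hI _ _ hp hrel, ?_⟩
      have e2 := hg a (G v xh)
      rw [e1] at e2
      rw [hG1]
      exact rel_unique_smul _ σ (pt_base σ hp) (rel_base σ _ hrel) hc e2
  obtain ⟨hyp, c, hc, e1⟩ := hreach w y hy
  obtain ⟨hyp', c', hc', e2⟩ := hreach w' y' hy'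
  rw [← hGG, e1] at e2
  obtain ⟨i, hi⟩ := Function.ne_iff.1 hyp.1
  have hi0 : y i ≠ 0 := hi
  have e3 : ∀ j, c * σ (y j) = c' * σ (y' j) := fun j => congrFun e2 j
  have hσi : σ (y i) ≠ 0 := (map_ne_zero σ).2 hi0
  have e4 : y' = (y' i / y i) • y := by
    funext j
    apply σ.injective
    rw [Pi.smul_apply, smul_eq_mul, map_mul, map_div₀]
    have e5 := e3 i
    have e6 := e3 j
    have e7 : σ (y' i) = c / c' * σ (y i) := by field_simp; linear_combination -e5
    have e8 : σ (y' j) = c / c' * σ (y j) := by field_simp; linear_combination -e6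
    rw [e7, e8]
    field_simp
  refine ⟨y' i / y i, fun h0 => hyp'.1 ?_, e4⟩
  rw [e4, h0, zero_smul]

end Pool.Agent.Q123.PE
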